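import Pool.Agent.T2H95.LF.All
import Pool.Agent.T2H95.LF.CHI
import Pool.Agent.T2H95.LF.LS

/-!
# MP_21d687_nt: the Lindelöf bound for all quadratic twists, for almost every tempered eigenvalue system

`F` is an arbitrary number field. An everywhere unramified tempered representation `π = ⊗ π_P` of `PGL_2` over the finite
adeles of `F` is given by its Satake traces `x_P = λ_π(P)` in `[-2, 2]`, one for each prime ideal `P`, and its L-series is
`∑ λ_π(I) N(I)^{-s}`, `λ_π(P^j) = U_j(x_P / 2)`. Q1 is about the countably many `π` that are automorphic. Here the `x_P` are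
chosen independently at random, from any symmetric probability measures on `[-2, 2]` (Sato–Tate measure, Plancherel
measures, ...). For almost every `π`, simultaneously for ALL quadratic twists `π ⊗ χ_D`: the twisted L-series converges to
the right of the critical line and satisfies the Lindelöf bound on every line `Re s = 1/2 + δ` in the `D`- and `t`-aspects;
and at the central point (where a random Euler product has no value) the Lindelöf bound holds for the partial sums, of
every length polynomial in `|D|`, with any decreasing weights `V(N(I))`, as in the approximate functional equation, which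
expresses the central value of an automorphic `π ⊗ χ_D` by such sums.

`chi D` (file `T2H51/LQ/Defs.lean`) is, for squarefree `D`, the quadratic character of the ideals attached to `F(√D)/F`.
-/

set_option autoImplicit false

open MeasureTheory Filter Topology NumberField
open Pool.Agent.T2H95.LF
open Pool.Agent.T2H51.LQ (chi)

namespace Pool.Agent.Results.MP_21d687_nt.AlmostEveryTemperedForm

/-- (1) Right of the centre: for almost every `x`, for all `δ, β > 0` there is `C` such that for all `D ≠ 0` in the ring of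
integers and all real `t` the L-series `∑ λ_x(I) χ_D(I) N(I)^{-s}`, `s = 1/2 + δ + it`, summed in the order of the norms,
converges to a number of absolute value at most `C (|N(D)| (1 + |t|))^β`.

(2) At the centre, in the setting of Q1: for almost every `x`, for all `A, β > 0` there is `C` such that for all
`D ≠ 0` in the ring of integers, all `N ≤ |N(D)|^A`, all real `|t| ≤ |N(D)|^A` and all nonincreasing weights `V` with values
in `[0, 1]`, the sum of `λ_x(I) χ_D(I) N(I)^{-1/2-it} V(N(I))` over the ideals of norm at most `N` is at most `C |N(D)|^β`.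

(3) More precisely, for every family of functions of absolute value at most `1` on the ideals, with polynomially many
members of size at most `Q` (such as the `χ_D`, or all ray class characters): for almost every `x` there is `C` such that
for all `Q ≥ 3`, all members of size at most `Q`, all `N ≤ Q`, all `|t| ≤ Q`, all such `V` these sums are at most
`exp (C √(log Q log log Q))`.

(4) The `χ_D`, `D ≠ 0`, with size `|N(D)|`, are such a family, and the Sato–Tate measures satisfy the hypotheses. -/
theorem result (F : Type) [Field F] [NumberField F] :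
    (∀ (μ : Ideal (𝓞 F) → Measure ℝ), AdmI F μ →
      (∀ᵐ x ∂(Measure.infinitePi μ), ∀ δ β : ℝ, 0 < δ → 0 < β → ∃ C : ℝ, ∀ (D : 𝓞 F) (t : ℝ), D ≠ 0 →
        ∃ L : ℂ, Tendsto (fun N : ℕ => ∑ I ∈ ball F N, (lamI F x I : ℂ) * (chi D I : ℂ) *
            ((Ideal.absNorm I : ℕ) : ℂ) ^ (-((1 / 2 + δ : ℝ) : ℂ) - t * Complex.I)) atTop (𝓝 L) ∧
          ‖L‖ ≤ C * ((Ideal.absNorm (Ideal.span {D}) : ℝ) * (1 + |t|)) ^ β) ∧
      (∀ᵐ x ∂(Measure.infinitePi μ), ∀ A β : ℝ, 0 < A → 0 < β → ∃ C : ℝ,
          ∀ (D : 𝓞 F) (N : ℕ) (t : ℝ) (V : ℕ → ℝ), D ≠ 0 →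
            (N : ℝ) ≤ (Ideal.absNorm (Ideal.span {D}) : ℝ) ^ A →
            |t| ≤ (Ideal.absNorm (Ideal.span {D}) : ℝ) ^ A →
            Antitone V → (∀ n, 0 ≤ V n ∧ V n ≤ 1) →
            ‖SV F x (fun I => (chi D I : ℂ)) V N t‖ ≤ C * (Ideal.absNorm (Ideal.span {D}) : ℝ) ^ β) ∧
      (∀ (ι : Type) (g : ι → Ideal (𝓞 F) → ℂ) (cd : ι → ℕ), Fam F ι g cd →
        ∀ᵐ x ∂(Measure.infinitePi μ), ∃ C : ℝ,
          ∀ (Q : ℝ) (i : ι) (N : ℕ) (t : ℝ) (V : ℕ → ℝ), 3 ≤ Q → (cd i : ℝ) ≤ Q → (N : ℝ) ≤ Q → |t| ≤ Q →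
            Antitone V → (∀ n, 0 ≤ V n ∧ V n ≤ 1) →
            ‖SV F x (g i) V N t‖ ≤ Real.exp (C * Real.sqrt (Real.log Q * Real.log (Real.log Q))))) ∧
    Fam F {D : 𝓞 F // D ≠ 0} (fun D I => (chi D.1 I : ℂ)) (fun D => Ideal.absNorm (Ideal.span {D.1})) ∧
    AdmI F (fun _ => satoTate) := by
  have hfam : Fam F {D : 𝓞 F // D ≠ 0} (fun D I => (chi D.1 I : ℂ))
      (fun D => Ideal.absNorm (Ideal.span {D.1})) := by
    refine pQF F (pHARM F) (fun D I => (chi D I : ℂ)) (fun D I => ?_) (fun u D => ?_)
    · rw [Complex.norm_real]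
      exact CHI.chi_abs D I
    · rw [CHI.chi_unit]
  have hcd : ∀ i : {D : 𝓞 F // D ≠ 0}, 1 ≤ Ideal.absNorm (Ideal.span {i.1}) := by
    intro i
    refine Nat.pos_of_ne_zero ?_
    rw [Ne, Ideal.absNorm_eq_zero_iff, Ideal.span_singleton_eq_bot]
    exact i.2
  refine ⟨fun μ hμ => ⟨?_, ?_, fun ι g cd hf => ?_⟩, hfam, adm_satoTate F⟩
  · filter_upwards [pLS F (fin F) _ _ _ hfam hcd μ hμ] with x hx δ β hδ hβ
    obtain ⟨C, hC⟩ := hx δ β hδ hβ
    exact ⟨C, fun D t hD => hC ⟨D, hD⟩ t⟩
  · filter_upwards [pLIN F (fin F) _ _ _ hfam hcd μ hμ] with x hx A β hA hβ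
    obtain ⟨C, hC⟩ := hx A β hA hβ
    refine ⟨C, fun D N t V hD hN ht hV hV1 => ?_⟩
    refine CHI.weighted F x _ V hV (fun n => (hV1 n).1) (fun n => (hV1 n).2) N t _ fun n hn => ?_
    exact hC ⟨D, hD⟩ n t (le_trans (by exact_mod_cast hn) hN) ht
  · filter_upwards [fin F ι g cd hf μ hμ] with x hx
    obtain ⟨C, hC⟩ := hx
    refine ⟨C, fun Q i N t V hQ hi hN ht hV hV1 => ?_⟩
    refine CHI.weighted F x _ V hV (fun n => (hV1 n).1) (fun n => (hV1 n).2) N t _ fun n hn => ?_
    exact hC Q i n t hQ hi (le_trans (by exact_mod_cast hn) hN) ht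

end Pool.Agent.Results.MP_21d687_nt.AlmostEveryTemperedForm
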