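import Pool.Agent.T2H95.LR.AllLow

/-!
# MP_21d687_nt: the true size of the largest character twist of almost every tempered eigenvalue system over `ℚ`

Give the primes independent Satake traces `x_p` in `[-2, 2]` with one common symmetric law `μ₀ ≠ δ_0` (Sato–Tate, say), so
that `λ_x(n) = ∏ U_{v_p(n)}(x_p / 2)` are the Hecke eigenvalues of an everywhere unramified tempered representation of
`PGL_2` over the finite adeles of `ℚ`. Let `M(Q)` be the largest value of `|∑_{n ≤ N} λ_x(n) χ(n) n^{-1/2-it}|` over ALL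
Dirichlet characters `χ` modulo `q ≤ Q`, all `N ≤ Q` and all real `|t| ≤ Q`. Almost surely `M(Q) = exp ((log Q)^{1/2 + o(1)})`.
The upper bound is the Lindelöf bound in a strong form; the lower bound shows that its exponent `1/2` is the true one.
-/

set_option autoImplicit false

open MeasureTheory Filter Topology
open Pool.Agent.T2H95.LR (S Mx)

namespace Pool.Agent.Results.MP_21d687_nt.MaximalTwist

/-- For almost every `x` there are `c, C > 0` such that for all large `Q`
`exp (c √(log Q) / log log Q) ≤ M(Q) ≤ exp (C √(log Q log log Q))`; so `log log M(Q) / log log Q → 1/2`. -/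
theorem result (μ₀ : Measure ℝ) [IsProbabilityMeasure μ₀] (hb : ∀ᵐ x ∂μ₀, |x| ≤ 2)
    (hs : μ₀.map (fun x => -x) = μ₀) (hv : 0 < ∫ x, x ^ 2 ∂μ₀) :
    ∀ᵐ x ∂(Measure.infinitePi fun _ : ℕ => μ₀),
      (∃ c C : ℝ, 0 < c ∧ ∀ᶠ Q : ℕ in atTop,
        Real.exp (c * Real.sqrt (Real.log Q) / Real.log (Real.log Q)) ≤ Mx x Q ∧
        Mx x Q ≤ Real.exp (C * Real.sqrt (Real.log Q * Real.log (Real.log Q)))) ∧
      Tendsto (fun Q : ℕ => Real.log (Real.log (Mx x Q)) / Real.log (Real.log Q)) atTop (𝓝 (1 / 2)) :=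
  Pool.Agent.T2H95.LR.max_all Pool.Agent.T2H95.LR.low_all Pool.Agent.T2H95.LR.fin_all μ₀ hb hs hv

end Pool.Agent.Results.MP_21d687_nt.MaximalTwist
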