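import Pool.Agent.T2H86.RH.All

/-!
# MP_21d687_nt: the Lindelöf bound for all quadratic twists of almost every real twist of a given form

`F` is a number field. Let `π` be given by its coefficients `λ` (any cuspidal automorphic representation of
`PGL₂` over `F` satisfies the conditions `Coeffs`), and let `X v` be independent symmetric random variables with
values in `[-1, 1]`, one for each prime ideal `v` (fair signs, or the values `0, 1, -1` with the probabilities
`1/(N v + 1)`, `N v/(2 (N v + 1))`, `N v/(2 (N v + 1))`, the distribution of the values of a random quadratic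
character). For almost every completely multiplicative `X` the sums of Q1 for `π ⊗ X` and ALL quadratic twists
`χ_D`, `D ≠ 0`, at once satisfy the Lindelöf bound, of every length and height polynomial in `|N(D)|`, and with
any decreasing weights, as in the approximate functional equation.

Idea of the proof: the moments of order `2k` are expectations of products `X(n_1) ⋯ X(n_2k)`, which are
nonnegative, so that the coefficients may be replaced by their absolute values and the range of summation may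
be enlarged to the ideals with all primes of norm at most `x`. The resulting Euler product is
`exp (O (k² log log x))`, uniformly in `k` and in `D`, by the Rankin-Selberg bound. Then use the lemma of Borel
and Cantelli with `k = √(log Q / log log Q)` for all `D` with `|N(D)| ≤ Q` and a net of points `t`.
-/

set_option autoImplicit false

namespace Pool.Agent.Results.MP_21d687_nt.RandomTwistsAllD

open MeasureTheory ProbabilityTheory NumberField IsDedekindDomain

variable {F : Type} [Field F] [NumberField F]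

/-- The norm of the ideal `∏ v ^ (n v)`. -/
noncomputable def nrm (n : HeightOneSpectrum (𝓞 F) →₀ ℕ) : ℕ :=
  n.prod fun v j => Ideal.absNorm v.asIdeal ^ j

/-- Coefficients `λ` of an `L`-function over `F` like that of a cuspidal automorphic representation of `PGL₂`, as
a function of the nonzero ideals `n = ∏ v ^ (n v)`: multiplicative, `|λ(v^j)| ≤ (j + 1) (N v)^(j θ)` with some
`θ < 1/6` (`θ = 7/64` is known), `|λ(v^2)| ≤ |λ(v)|^2 + 1`, and the Rankin-Selberg bound
`∑_{N v ≤ x} |λ(v)|^2 / N v = O(log log x)`. -/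
structure Coeffs (lam : (HeightOneSpectrum (𝓞 F) →₀ ℕ) → ℂ) : Prop where
  one : lam 0 = 1
  mul : ∀ m n : HeightOneSpectrum (𝓞 F) →₀ ℕ, Disjoint m.support n.support → lam (m + n) = lam m * lam n
  bound : ∃ θ : ℝ, 0 ≤ θ ∧ θ < 1 / 6 ∧ ∀ (v : HeightOneSpectrum (𝓞 F)) (j : ℕ),
    ‖lam (Finsupp.single v j)‖ ≤ ((j : ℝ) + 1) * (Ideal.absNorm v.asIdeal : ℝ) ^ ((j : ℝ) * θ)
  square : ∀ v : HeightOneSpectrum (𝓞 F),
    ‖lam (Finsupp.single v 2)‖ ≤ ‖lam (Finsupp.single v 1)‖ ^ 2 + 1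
  rankin : ∃ C : ℝ, ∀ (x : ℕ) (S : Finset (HeightOneSpectrum (𝓞 F))),
    (∀ v ∈ S, Ideal.absNorm v.asIdeal ≤ x) →
    ∑ v ∈ S, ‖lam (Finsupp.single v 1)‖ ^ 2 / (Ideal.absNorm v.asIdeal : ℝ) ≤
      C * Real.log (Real.log (x + 16))

/-- The random twist: `X v` (`v` the primes) are measurable, independent, symmetric and bounded by one. -/
structure RandomTwist {Ω : Type} [MeasurableSpace Ω] (μ : Measure Ω)
    (X : HeightOneSpectrum (𝓞 F) → Ω → ℝ) : Prop where
  meas : ∀ v, Measurable (X v)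
  indep : iIndepFun X μ
  symm : ∀ v, μ.map (X v) = μ.map (fun ω => -X v ω)
  bdd : ∀ v ω, |X v ω| ≤ 1

/-- The exponent of the prime `v` in the ideal `I`. -/
noncomputable def ordI (v : HeightOneSpectrum (𝓞 F)) (I : Ideal (𝓞 F)) : ℕ :=
  (Associates.mk v.asIdeal).count (Associates.mk I).factors

open Classical in
/-- The quadratic character `χ_D` of `F(√D)/F` at the prime `v`, for `D` squarefree, with `e = ord_v 2`: it is `0`
if `D ∈ v` or `D` is not a square modulo `v^(2e)` (`v` ramified), `1` if `D` is a square modulo `v^(2e+1)`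
(`v` split), and `-1` otherwise (`v` inert). -/
noncomputable def chiP (D : 𝓞 F) (v : HeightOneSpectrum (𝓞 F)) : ℝ :=
  if D ∈ v.asIdeal ∨ ¬ ∃ x : 𝓞 F, D - x ^ 2 ∈ v.asIdeal ^ (2 * ordI v (Ideal.span {2})) then 0
  else if ∃ x : 𝓞 F, D - x ^ 2 ∈ v.asIdeal ^ (2 * ordI v (Ideal.span {2}) + 1) then 1 else -1

/-- The sum `∑_{N(n) ≤ N} λ(n) V(N(n)) X(n) χ_D(n) N(n)^(-1/2 - i t)` over the nonzero ideals `n` of norm at most
`N`, with `X` and `χ_D` completely multiplicative. -/
noncomputable def twistedSum (lam : (HeightOneSpectrum (𝓞 F) →₀ ℕ) → ℂ) (X : HeightOneSpectrum (𝓞 F) → ℝ)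
    (D : 𝓞 F) (V : ℕ → ℝ) (N : ℕ) (t : ℝ) : ℂ :=
  ∑ᶠ (n : HeightOneSpectrum (𝓞 F) →₀ ℕ) (_ : nrm n ≤ N),
    lam n * (V (nrm n) : ℂ) * ((n.prod fun v j => (X v * chiP D v) ^ j : ℝ) : ℂ) *
      (nrm n : ℂ) ^ (-(1 / 2 : ℂ) - t * Complex.I)

/-- Let `lam i` (`i` in a countable set, for instance all cuspidal representations of `PGL₂` over `F`) be
coefficients and `X` a random twist. Almost surely for all `i`: (1) for all `A, β > 0` there is `C` such that for
all `D ≠ 0` in the ring of integers, all `N ≤ |N(D)|^A`, all real `t` with `|t| ≤ |N(D)|^A` and all nonincreasing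
weights `V` with values in `[0, 1]` the twisted sum is at most `C |N(D)|^β` in absolute value; (2) there is `C` such
that it is at most `exp (C √(log Q log log Q))` for all `Q ≥ 3` and all `|N(D)|, N, |t| ≤ Q`. -/
theorem result (F : Type) [Field F] [NumberField F] {ι Ω : Type} [Countable ι] [MeasurableSpace Ω]
    (μ : Measure Ω) [IsProbabilityMeasure μ] (X : HeightOneSpectrum (𝓞 F) → Ω → ℝ) (hX : RandomTwist μ X)
    (lam : ι → (HeightOneSpectrum (𝓞 F) →₀ ℕ) → ℂ) (hlam : ∀ i, Coeffs (lam i)) :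
    ∀ᵐ ω ∂μ, ∀ i : ι,
      (∀ A β : ℝ, 0 < A → 0 < β → ∃ C : ℝ, ∀ (D : 𝓞 F) (N : ℕ) (t : ℝ) (V : ℕ → ℝ), D ≠ 0 →
        (N : ℝ) ≤ (Ideal.absNorm (Ideal.span {D}) : ℝ) ^ A →
        |t| ≤ (Ideal.absNorm (Ideal.span {D}) : ℝ) ^ A →
        Antitone V → (∀ n, 0 ≤ V n ∧ V n ≤ 1) →
        ‖twistedSum (lam i) (fun v => X v ω) D V N t‖ ≤
          C * (Ideal.absNorm (Ideal.span {D}) : ℝ) ^ β) ∧
      (∃ C : ℝ, ∀ (Q : ℕ) (D : 𝓞 F) (N : ℕ) (t : ℝ) (V : ℕ → ℝ), 3 ≤ Q → D ≠ 0 →
        Ideal.absNorm (Ideal.span {D}) ≤ Q → N ≤ Q → |t| ≤ (Q : ℝ) →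
        Antitone V → (∀ n, 0 ≤ V n ∧ V n ≤ 1) →
        ‖twistedSum (lam i) (fun v => X v ω) D V N t‖ ≤
          Real.exp (C * Real.sqrt (Real.log Q * Real.log (Real.log Q)))) := by
  rw [ae_all_iff]
  intro i
  have hX' : Pool.Agent.T2H86.RC.Model μ X := ⟨hX.meas, hX.indep, hX.symm, hX.bdd⟩
  have hl' : Pool.Agent.T2H86.RG.Coeffs (Pool.Agent.T2H86.RH.nm F) (lam i) :=
    ⟨(hlam i).one, (hlam i).mul, (hlam i).bound, (hlam i).square, (hlam i).rankin⟩
  filter_upwards [Pool.Agent.T2H86.RH.weighted F μ X hX' (lam i) hl'] with ω hω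
  obtain ⟨C, hC⟩ := hω
  have h2 : ∀ (Q : ℕ) (D : 𝓞 F) (N : ℕ) (t : ℝ) (V : ℕ → ℝ), 3 ≤ Q → D ≠ 0 →
      Ideal.absNorm (Ideal.span {D}) ≤ Q → N ≤ Q → |t| ≤ (Q : ℝ) →
      Antitone V → (∀ n, 0 ≤ V n ∧ V n ≤ 1) →
      ‖twistedSum (lam i) (fun v => X v ω) D V N t‖ ≤
        Real.exp (C * Real.sqrt (Real.log Q * Real.log (Real.log Q))) :=
    fun Q D N t V hQ hD hDQ hN ht hV hV1 => hC Q D N t V hQ hD hDQ hN ht hV hV1
  refine ⟨fun A β hA hβ => ?_, C, h2⟩
  obtain ⟨C', hC'⟩ := Pool.Agent.T2H86.RH.pLN4 C A β hA hβ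
  refine ⟨C', fun D N t V hD hN ht hV hV1 => ?_⟩
  have hd : 1 ≤ Ideal.absNorm (Ideal.span {D}) := by
    refine Nat.pos_of_ne_zero ?_
    rw [Ne, Ideal.absNorm_eq_zero_iff, Ideal.span_singleton_eq_bot]
    exact hD
  obtain ⟨Q, hQ3, hdQ, hAQ, hexp⟩ := hC' _ hd
  refine (h2 Q D N t V hQ3 hD hdQ ?_ (ht.trans hAQ) hV hV1).trans hexp
  exact_mod_cast hN.trans hAQ

end Pool.Agent.Results.MP_21d687_nt.RandomTwistsAllD
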